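import Mathlib

set_option autoImplicit false
set_option linter.unusedSectionVars false
open Polynomial Finset

namespace Pool.Agent.H.MP_25c86d_nt

section
variable {B : Type} [CommRing B]

def Per (y : B) (k : ℕ) : Prop := ∃ l : ℕ, y ^ (k + l) = y ^ l

noncomputable def per (y : B) : ℕ := sInf {k | 1 ≤ k ∧ Per y k}

theorem step {y : B} {k l : ℕ} (h : y ^ (k + l) = y ^ l) (t j : ℕ) :
    y ^ (k * t + (l + j)) = y ^ (l + j) := by
  induction t with
  | zero => simp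
  | succ t ih => rw [← ih, show k * (t + 1) + (l + j) = k + l + (k * t + j) by ring, pow_add, h,
      ← pow_add]; congr 1; ring

theorem per_mem [Finite B] (y : B) : 1 ≤ per y ∧ Per y (per y) := by
  refine Nat.sInf_mem (s := {k | 1 ≤ k ∧ Per y k}) ?_
  obtain ⟨i, j, h, e⟩ := Finite.exists_ne_map_eq_of_infinite fun n : ℕ => y ^ n
  wlog c : i < j generalizing i j
  · exact this j i h.symm e.symm (by omega)
  exact ⟨j - i, by omega, i, by rw [Nat.sub_add_cancel c.le]; exact e.symm⟩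

theorem per_dvd [Finite B] {y : B} {k : ℕ} : per y ∣ k ↔ Per y k := by
  obtain ⟨h1, l, hl⟩ := per_mem y
  refine ⟨fun ⟨t, e⟩ => ⟨l + 0, e ▸ step hl t 0⟩, fun ⟨j, hj⟩ => ?_⟩
  by_contra c
  refine Nat.notMem_of_lt_sInf (s := {k | 1 ≤ k ∧ Per y k}) (Nat.mod_lt k h1)
    ⟨Nat.pos_of_ne_zero (mt Nat.dvd_of_mod_eq_zero c), l + j, ?_⟩
  have := step hl (k / per y) (k % per y + j)
  rw [show per y * (k / per y) + (l + (k % per y + j)) = per y * (k / per y) + k % per y + j + l by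
    ring, Nat.div_add_mod, pow_add, hj] at this
  change y ^ (k % per y + (l + j)) = _
  rw [add_left_comm, ← this, ← pow_add, add_comm]

def Z (n y : B) (k : ℕ) : Prop := ∃ l : ℕ, n ∣ y ^ l * (y ^ k - 1)

theorem up {p : ℕ} {n y : B} {k : ℕ} (h : Z (p * n) y k) : Z (p * (p * n)) y (k * p) := by
  obtain ⟨l, g, hg⟩ := h
  obtain ⟨w, hw⟩ : y ^ k - 1 ∣ ∑ i ∈ range p, ((y ^ k) ^ i - 1) :=
    dvd_sum fun i _ => sub_one_dvd_pow_sub_one _ _
  rw [sum_sub_distrib, sum_const, card_range, nsmul_one] at hw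
  refine ⟨l + l, g * y ^ l + n * g * g * w, ?_⟩
  rw [pow_mul, ← geom_sum_mul, pow_add]
  linear_combination (y ^ l * y ^ l * (y ^ k - 1)) * hw +
    (p * y ^ l + (y ^ l * (y ^ k - 1) + p * n * g) * w) * hg

theorem down {p : ℕ} (hp : Odd p) (r : IsLeftRegular (p : B)) {n y : B} (r' : IsLeftRegular n) {k : ℕ}
    (h : Z (p * n) y k) (h' : Z (p * (p * (p * n))) y (k * p)) : Z (p * (p * n)) y k := by
  obtain ⟨l, g, hg⟩ := h
  obtain ⟨j, g', hg'⟩ := h'
  obtain ⟨w, hw⟩ := odd_sq_dvd_geom_sum₂_sub (p := p) (y ^ l) (n * g) hp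
  have e := geom_sum₂_mul (y ^ l + p * (n * g)) (y ^ l) p
  have e2 : (y ^ l + p * (n * g)) ^ p = (y ^ l) ^ p * y ^ (k * p) := by
    rw [pow_mul, ← mul_pow]; congr 1; linear_combination -hg
  have : y ^ j * g * (y ^ l) ^ (p - 1) = p * (g' * (y ^ l) ^ p - y ^ j * g * w) :=
    r' (r (r (by
      simp only
      linear_combination (y ^ l) ^ p * hg' + y ^ j * e + y ^ j * e2 - y ^ j * (p * (n * g)) * hw)))
  refine ⟨j + l * (p - 1) + l, g' * (y ^ l) ^ p - y ^ j * g * w, ?_⟩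
  rw [pow_add, pow_add, pow_mul]
  linear_combination (y ^ j * (y ^ l) ^ (p - 1)) * hg + (p * n) * this

theorem Z.more {n y : B} {k l : ℕ} (h : n ∣ y ^ l * (y ^ k - 1)) {j : ℕ} (hj : l ≤ j) :
    n ∣ y ^ j * (y ^ k - 1) := h.trans (mul_dvd_mul_right (pow_dvd_pow y hj) _)

theorem perturb {p : ℕ} (hp : 0 < p) (r : IsLeftRegular (p : B)) {y : B} {k : ℕ} (hk : p.Coprime k)
    (h : Z (p * p : B) y k) (h' : Z (p * p : B) (y + p) k) : ∃ l, (p : B) ∣ y ^ l := by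
  obtain ⟨l, h⟩ := h
  obtain ⟨j, h'⟩ := h'
  obtain ⟨g, hg⟩ := Z.more h (j := p * (l + j)) (by nlinarith)
  obtain ⟨g', hg'⟩ := Z.more h' (j := p * (l + j)) (by nlinarith)
  obtain ⟨u, hu⟩ := sq_dvd_add_pow_sub_sub (p : B) y (p * (l + j))
  obtain ⟨v, hv⟩ := sq_dvd_add_pow_sub_sub (p : B) y (p * (l + j) + k)
  refine ⟨p * (l + j) + k - 1, (hk.cast (R := B)).dvd_of_dvd_mul_right ⟨g' - g - v + u +
    (l + j) * (y ^ (p * (l + j) - 1) - y ^ (p * (l + j) + k - 1)), r ?_⟩⟩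
  rw [pow_add, pow_add] at hv
  push_cast at hu hv
  simp only
  linear_combination hg' - hg - hv + hu

end

theorem key {p : ℕ} [hp : Fact p.Prime] {a b : ℤ} {s k l : ℕ} (ha : (a : ZMod p) ≠ 0)
    (hb : (b : ZMod p) ≠ 0) (hs : (s : ZMod p) ≠ 0) (hk : (k : ZMod p) ≠ 0) {q h : ℤ[X]}
    (e : (C a + C b * X) ^ (p * l) * ((C a + C b * X) ^ (p * k) - 1) =
      (X ^ (p * s) - 1) * q + (p : ℤ[X]) * (p : ℤ[X]) * h) :
    (X ^ (p * s) - 1 : (ZMod p)[X]) ∣ (C (a : ZMod p) + C (b : ZMod p) * X) ^ (p * l + p * k) := by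
  have d : ∀ {S : Type} [CommRing S] (g : S[X]) (n : ℕ), g * derivative (g ^ n) =
      n * g ^ n * derivative g := fun g n => by
    cases n with
    | zero => simp
    | succ n => rw [derivative_pow_succ]; simp only [map_add, map_natCast, map_one]; push_cast; ring
  have s0 : p * s ≠ 0 := mul_ne_zero hp.out.ne_zero fun c => hs (by simp [c])
  have hM : (X ^ (p * s) - 1 : (ZMod p)[X]).Monic := monic_X_pow_sub_C 1 s0
  have pz : ((p : ℕ) : (ZMod p)[X]) = 0 := CharP.cast_eq_zero _ p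
  have dp : ∀ (g : (ZMod p)[X]) n, derivative (g ^ (p * n)) = 0 := fun g n => by
    rw [derivative_pow]; simp
  let m := mapRingHom (Int.castRingHom (ZMod p))
  have e1 := congrArg m e
  simp only [m, coe_mapRingHom, Polynomial.map_mul, Polynomial.map_add, Polynomial.map_sub,
    Polynomial.map_pow, map_X, Polynomial.map_one, Polynomial.map_natCast, pz, zero_mul,
    add_zero, eq_intCast, Polynomial.map_intCast] at e1
  have e2 := congrArg derivative e1
  simp only [derivative_mul, derivative_sub, dp, derivative_one, zero_mul, sub_zero, mul_zero,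
    zero_add] at e2
  have q0 : derivative (q.map (Int.castRingHom (ZMod p))) = 0 :=
    (mul_eq_zero.1 e2.symm).resolve_left hM.ne_zero
  obtain ⟨q1, hq⟩ : C (p : ℤ) ∣ derivative q := (C_dvd_iff_dvd_coeff _ _).2 fun i =>
    (ZMod.intCast_zmod_eq_zero_iff_dvd _ p).1 (by
      have := congrArg (coeff · i) q0
      rwa [derivative_map, coeff_map] at this)
  have e3 := congrArg derivative e
  have d1 := d (C a + C b * X) (p * l)
  have d2 := d (C a + C b * X) (p * k)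
  have d3 := d (X : ℤ[X]) (p * s)
  simp only [derivative_mul, derivative_sub, derivative_add, derivative_one, derivative_natCast,
    derivative_C, derivative_X, zero_mul, sub_zero, mul_zero, zero_add, mul_one, hq, map_natCast,
    Nat.cast_mul] at e3 d1 d2 d3
  have e4 : C b * X * (((l : ℤ[X]) + (k : ℤ[X])) * (C a + C b * X) ^ (p * l + p * k) -
      (l : ℤ[X]) * (C a + C b * X) ^ (p * l)) = (C a + C b * X) * ((s : ℤ[X]) * X ^ (p * s) * q +
        X * (X ^ (p * s) - 1) * q1 + (p : ℤ[X]) * X * derivative h) :=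
    mul_left_cancel₀ (a := (p : ℤ[X])) (Nat.cast_ne_zero.2 hp.out.ne_zero) (by
      rw [pow_add]
      linear_combination (C a + C b * X) * X * e3 - X * ((C a + C b * X) ^ (p * k) - 1) * d1 -
        X * (C a + C b * X) ^ (p * l) * d2 + (C a + C b * X) * q * d3)
  have e5 := congrArg m e4
  simp only [m, coe_mapRingHom, Polynomial.map_mul, Polynomial.map_add, Polynomial.map_sub,
    Polynomial.map_pow, map_X, Polynomial.map_one, Polynomial.map_natCast, pz, zero_mul,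
    add_zero, eq_intCast, Polynomial.map_intCast, ← mul_add p] at e5
  have e6 := congrArg derivative e5
  simp only [derivative_mul, derivative_sub, derivative_add, dp, derivative_one, derivative_natCast,
    derivative_intCast, derivative_X, zero_mul, sub_zero, mul_zero, zero_add, add_zero, mul_one,
    one_mul, q0] at e6
  rw [mul_add p, pow_add] at e5 e6
  have ca := map_intCast (C : ZMod p →+* _) a
  have cb := map_intCast (C : ZMod p →+* _) b
  have cs := map_natCast (C : ZMod p →+* _) s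
  have ck := map_natCast (C : ZMod p →+* _) k
  rw [pow_add, ca, cb]
  have u : ∀ {c : ZMod p} {w : (ZMod p)[X]}, c ≠ 0 → X ^ (p * s) - 1 ∣ C c * w →
      X ^ (p * s) - 1 ∣ w := fun hc => (isUnit_C.2 hc.isUnit).dvd_mul_left.1
  generalize q.map (Int.castRingHom (ZMod p)) = Q at *
  generalize q1.map (Int.castRingHom (ZMod p)) = Q1 at *
  generalize (a : (ZMod p)[X]) = a' at *
  generalize (b : (ZMod p)[X]) = b' at *
  generalize (s : (ZMod p)[X]) = s' at *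
  generalize (k : (ZMod p)[X]) = k' at *
  generalize (l : (ZMod p)[X]) = l' at *
  obtain ⟨w, hw⟩ : X ^ (p * s) - 1 ∣ Q := u ha (u hs ⟨b' * X * X * Q1 + (a' + b' * X) * X * X *
    derivative Q1 - a' * s' * Q, by rw [ca, cs]; linear_combination X * e6 - e5⟩)
  obtain ⟨z, hz⟩ := u hb (w := (l' + k') * ((a' + b' * X) ^ (p * l) * (a' + b' * X) ^ (p * k)) -
    l' * (a' + b' * X) ^ (p * l)) ⟨b' * (s' * X ^ (p * s) * w + X * Q1) +
      (a' + b' * X) * (Q1 + X * derivative Q1), by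
    rw [cb]; linear_combination e6 + b' * s' * X ^ (p * s) * hw⟩
  exact u hk ⟨z - l' * Q, by rw [ck]; linear_combination hz - l' * e1⟩

abbrev R (σ n : ℕ) := AdjoinRoot (X ^ σ - 1 : (ZMod n)[X])
abbrev A (σ : ℕ) := AdjoinRoot (X ^ σ - 1 : ℤ[X])

theorem root_pow {S : Type} [CommRing S] (σ : ℕ) : AdjoinRoot.root (X ^ σ - 1 : S[X]) ^ σ = 1 := by
  have := AdjoinRoot.eval₂_root (X ^ σ - 1 : S[X])
  rwa [eval₂_sub, eval₂_X_pow, eval₂_one, sub_eq_zero] at this

noncomputable def lf {S B : Type} [CommRing S] [CommRing B] {σ : ℕ} (i : S →+* B) (y : B)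
    (h : y ^ σ = 1) : AdjoinRoot (X ^ σ - 1 : S[X]) →+* B :=
  AdjoinRoot.lift i y (by rw [eval₂_sub, eval₂_X_pow, eval₂_one, h, sub_self])

theorem lf_of {S B : Type} [CommRing S] [CommRing B] {σ : ℕ} (i : S →+* B) (y : B) (h : y ^ σ = 1)
    (c : S) : lf i y h (AdjoinRoot.of _ c) = i c := AdjoinRoot.lift_of _

theorem lf_root {S B : Type} [CommRing S] [CommRing B] {σ : ℕ} (i : S →+* B) (y : B)
    (h : y ^ σ = 1) : lf i y h (AdjoinRoot.root _) = y := AdjoinRoot.lift_root _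

noncomputable def ψ (σ n : ℕ) : A σ →+* R σ n := lf (Int.castRingHom _) _ (root_pow σ)

theorem ψ_mk (σ n : ℕ) (w : ℤ[X]) :
    ψ σ n (AdjoinRoot.mk _ w) = AdjoinRoot.mk _ (w.map (Int.castRingHom _)) := by
  rw [ψ, lf, AdjoinRoot.lift_mk, ← AdjoinRoot.aeval_eq, aeval_def, eval₂_map]
  congr 1

theorem dvd_mk {σ n : ℕ} {w : ℤ[X]} : (n : A σ) ∣ AdjoinRoot.mk _ w ↔
    ∃ q h : ℤ[X], w = (X ^ σ - 1) * q + (n : ℤ[X]) * h := by
  constructor
  · rintro ⟨h, e⟩
    obtain ⟨h, rfl⟩ := AdjoinRoot.mk_surjective h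
    rw [← map_natCast (AdjoinRoot.mk _), ← map_mul, AdjoinRoot.mk_eq_mk] at e
    exact e.imp fun q e => ⟨h, by linear_combination e⟩
  · rintro ⟨q, h, rfl⟩
    simp

theorem ker {σ n : ℕ} {y : A σ} : ψ σ n y = 0 ↔ (n : A σ) ∣ y := by
  refine ⟨fun e => ?_, fun ⟨h, e⟩ => by
    rw [e, map_mul, map_natCast, ← map_natCast (AdjoinRoot.of _), ZMod.natCast_self, map_zero,
      zero_mul]⟩
  obtain ⟨w, rfl⟩ := AdjoinRoot.mk_surjective y
  obtain ⟨q, hq⟩ := AdjoinRoot.mk_eq_zero.1 (ψ_mk σ n w ▸ e)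
  obtain ⟨q, rfl⟩ := map_surjective (Int.castRingHom (ZMod n)) ZMod.intCast_surjective q
  obtain ⟨h, e⟩ : C (n : ℤ) ∣ w - (X ^ σ - 1) * q := (C_dvd_iff_dvd_coeff _ _).2 fun i =>
    (ZMod.intCast_zmod_eq_zero_iff_dvd _ n).1 (by
      rw [← eq_intCast (Int.castRingHom (ZMod n)), ← coeff_map]
      simp [hq])
  exact dvd_mk.2 ⟨q, h, by rw [← map_natCast C]; linear_combination e⟩

theorem per_Z {σ n : ℕ} {y : A σ} {k : ℕ} : Per (ψ σ n y) k ↔ Z (n : A σ) y k :=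
  exists_congr fun l => by
    rw [← ker, map_mul, map_sub, map_pow, map_pow, map_one, mul_sub, mul_one, sub_eq_zero, ← pow_add,
      add_comm]

theorem fin (σ n : ℕ) [NeZero σ] [NeZero n] : Finite (R σ n) :=
  have := (monic_X_pow_sub_C (1 : ZMod n) (NeZero.ne σ)).finite_adjoinRoot
  Module.finite_of_finite (ZMod n) (M := AdjoinRoot (X ^ σ - C 1))

theorem reg (σ : ℕ) [NeZero σ] {n : ℕ} (hn : n ≠ 0) : IsLeftRegular (n : A σ) := fun x y h => by
  have : Module.Free ℤ (A σ) := (monic_X_pow_sub_C (1 : ℤ) (NeZero.ne σ)).free_adjoinRoot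
  exact smul_right_injective (A σ) (r := (n : ℤ)) (Nat.cast_ne_zero.2 hn) (by simpa using h)

noncomputable def f (σ : ℕ) (a b : ℤ) : A σ := (a : A σ) + (b : A σ) * AdjoinRoot.root _

theorem ψ_f (σ n : ℕ) (a b : ℤ) : ψ σ n (f σ a b) =
    AdjoinRoot.of _ (a : ZMod n) + AdjoinRoot.of _ (b : ZMod n) * AdjoinRoot.root _ := by
  simp [f, ψ, lf]

noncomputable def pi (σ n : ℕ) : ℕ := sSup (Set.range fun c : ZMod n × ZMod n =>
  per (AdjoinRoot.of _ c.1 + AdjoinRoot.of _ c.2 * AdjoinRoot.root _ : R σ n))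

theorem le_pi (σ n : ℕ) [NeZero n] (a b : ℤ) : per (ψ σ n (f σ a b)) ≤ pi σ n :=
  le_csSup (Set.finite_range _).bddAbove ⟨(a, b), congrArg per (ψ_f σ n a b).symm⟩

theorem ex_pi (σ n : ℕ) [NeZero n] : ∃ a b : ℤ, per (ψ σ n (f σ a b)) = pi σ n := by
  obtain ⟨⟨a, b⟩, e⟩ : pi σ n ∈ _ := (Set.range_nonempty _).csSup_mem (Set.finite_range _)
  obtain ⟨a, rfl⟩ := ZMod.intCast_surjective a
  obtain ⟨b, rfl⟩ := ZMod.intCast_surjective b
  exact ⟨a, b, (congrArg per (ψ_f σ n a b)).trans e⟩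

variable {p σ : ℕ} [hp : Fact p.Prime] [NeZero σ]

theorem nil {y : R σ p} {l : ℕ} (h : y ^ l = 0) : per y = 1 :=
  have := fin σ p
  Nat.dvd_one.1 (per_dvd.2 ⟨l, by rw [pow_add, h, mul_zero]⟩)

theorem frob (a b : ℤ) (n : ℕ) : (p : ℤ[X]) ∣ (C a + C b * X) ^ p ^ n - (C a + C b * X ^ p ^ n) := by
  rw [← map_natCast C]
  refine (C_dvd_iff_dvd_coeff _ _).2 fun i => (ZMod.intCast_zmod_eq_zero_iff_dvd _ p).1 ?_
  rw [← eq_intCast (Int.castRingHom (ZMod p)), ← coeff_map]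
  simp only [Polynomial.map_sub, Polynomial.map_pow, Polynomial.map_add, Polynomial.map_mul, map_C,
    map_X, add_pow_char_pow, mul_pow, ← C_pow, ZMod.pow_card_pow, sub_self, coeff_zero]

theorem mk_f (a b : ℤ) : AdjoinRoot.mk _ (C a + C b * X) = f σ a b := by simp [f]

theorem frob' (a b : ℤ) (n : ℕ) : ψ σ p (f σ a b) ^ p ^ n =
    (a : R σ p) + (b : R σ p) * AdjoinRoot.root _ ^ p ^ n := by
  obtain ⟨h, e⟩ := frob (p := p) a b n
  have := ker.2 (dvd_mk (σ := σ) (n := p).2 ⟨0, h, e.trans (by simp)⟩)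
  simpa [mk_f, sub_eq_zero, ψ, lf, f] using this

theorem dv {j s : ℕ} (e : σ = p ^ j * s) (hs : p.Coprime s) : ∃ k, p.Coprime k ∧
    ∀ a b : ℤ, per (ψ σ p (f σ a b)) ∣ p ^ j * k := by
  have := fin σ p
  have t : 0 < s.totient := Nat.totient_pos.2 (Nat.pos_of_ne_zero fun c => NeZero.ne σ (by simp [e, c]))
  have h1 : 1 ≤ p ^ s.totient := Nat.one_le_pow _ _ hp.out.pos
  refine ⟨p ^ s.totient - 1, ((Nat.coprime_self_sub_right h1).2 (Nat.coprime_one_right _)).coprime_dvd_left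
    (dvd_pow_self p t.ne'), fun a b => per_dvd.2 ⟨p ^ j, ?_⟩⟩
  obtain ⟨c, hc⟩ := (Nat.modEq_iff_dvd' h1).1 (Nat.ModEq.pow_totient hs).symm
  rw [← Nat.mul_succ, Nat.succ_eq_add_one, Nat.sub_add_cancel h1, ← pow_add, frob', frob', pow_add,
    show p ^ s.totient = s * c + 1 by omega, mul_add, ← mul_assoc, ← e, pow_add, pow_mul, root_pow,
    one_pow, one_mul, mul_one]

theorem hard {a b : ℤ} (ha : (a : ZMod p) ≠ 0) (hb : (b : ZMod p) ≠ 0)
    (h : p ∣ per (ψ σ p (f σ a b))) : ¬ Z (p * p : A σ) (f σ a b) (per (ψ σ p (f σ a b))) := by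
  intro hz
  obtain ⟨j, s, hs, e⟩ := Nat.exists_eq_pow_mul_and_not_dvd (NeZero.ne σ) p hp.out.ne_one
  obtain ⟨k, hk, hd⟩ := dv e (hp.out.coprime_iff_not_dvd.2 hs)
  obtain ⟨j, rfl⟩ : ∃ i, j = i + 1 := Nat.exists_eq_succ_of_ne_zero fun c =>
    hp.out.coprime_iff_not_dvd.1 hk (by simpa [c] using h.trans (hd a b))
  have : NeZero (p * p) := ⟨mul_ne_zero hp.out.ne_zero hp.out.ne_zero⟩
  have := fin σ (p * p)
  rw [← Nat.cast_mul, ← per_Z, ← per_dvd] at hz
  obtain ⟨l, hl⟩ := per_Z.1 (per_dvd.1 (hz.trans (hd a b)))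
  have h1 := Z.more hl (j := p ^ (j + 1) * l) (Nat.le_mul_of_pos_left _ (pow_pos hp.out.pos _))
  rw [← mk_f, ← map_pow, ← map_pow, ← map_one (AdjoinRoot.mk _), ← map_sub, ← map_mul, dvd_mk] at h1
  obtain ⟨q, w, h1⟩ := h1
  have h2 := dvd_sub_pow_of_dvd_sub (frob (p := p) a b j) 1
  rw [pow_one, ← pow_mul, ← pow_succ] at h2
  obtain ⟨u, hu⟩ := h2.trans (sub_dvd_pow_sub_pow _ _ l)
  obtain ⟨v, hv⟩ := h2.trans (sub_dvd_pow_sub_pow _ _ k)
  simp only [← pow_mul] at hu hv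
  have p0 : p ^ j ≠ 0 := pow_ne_zero _ hp.out.ne_zero
  have h3 := congrArg (contract (p ^ j)) (show expand ℤ (p ^ j) ((C a + C b * X) ^ (p * l) *
      ((C a + C b * X) ^ (p * k) - 1)) = q * expand ℤ (p ^ j) (X ^ (p * s) - 1) +
      (w - u * ((C a + C b * X) ^ (p ^ (j + 1) * k) - 1) - (C a + C b * X ^ p ^ j) ^ (p * l) * v) *
        expand ℤ (p ^ j) ((p : ℤ[X]) * (p : ℤ[X])) by
    simp only [map_mul, map_sub, map_add, map_pow, expand_C, expand_X, map_one, map_natCast]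
    rw [← pow_mul, ← mul_assoc, ← pow_succ, ← e]
    push_cast at h1
    linear_combination h1 - ((C a + C b * X) ^ (p ^ (j + 1) * k) - 1) * hu -
      (C a + C b * X ^ p ^ j) ^ (p * l) * hv)
  rw [contract_expand _ p0, contract_add p0, contract_mul_expand p0, contract_mul_expand p0,
    mul_comm _ (X ^ _ - 1), mul_comm _ (_ * _ : ℤ[X])] at h3
  have h4 := map_dvd (expand (ZMod p) (p ^ j)) (key ha hb (mt (ZMod.natCast_eq_zero_iff _ _).1 hs)
    (mt (ZMod.natCast_eq_zero_iff _ _).1 (hp.out.coprime_iff_not_dvd.1 hk)) h3)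
  simp only [map_sub, map_add, map_mul, map_pow, expand_C, expand_X, map_one] at h4
  rw [← pow_mul, ← mul_assoc, ← pow_succ, ← e, ← AdjoinRoot.mk_eq_zero] at h4
  rw [nil (l := p ^ j * (p * l + p * k)) (by rw [pow_mul, frob']; simpa using h4)] at h
  exact hp.out.not_dvd_one h

theorem sym (ho : Odd p) : ∃ c : ℤ, (c : ZMod p) ≠ 0 ∧ ∀ b : ℤ,
    per (ψ σ p (f σ 0 b)) ∣ per (ψ σ p (f σ c c)) := by
  have := fin σ p
  have h2 : (2 : ZMod p) ≠ 0 := fun c => Nat.not_even_iff_odd.2 ho (by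
    rw [(Nat.prime_dvd_prime_iff_eq hp.out Nat.prime_two).1
      ((ZMod.natCast_eq_zero_iff 2 p).1 c)]; exact even_two)
  obtain ⟨g, hg⟩ := IsCyclic.exists_ofOrder_eq_natCard (α := (ZMod p)ˣ)
  rw [Nat.card_eq_fintype_card, ZMod.card_units] at hg
  obtain ⟨c, hc⟩ := ZMod.intCast_surjective (g / 2 : ZMod p)
  have c0 : (c : ZMod p) ≠ 0 := hc ▸ div_ne_zero g.ne_zero h2
  refine ⟨c, c0, fun b => per_dvd.2 ⟨1, ?_⟩⟩
  obtain ⟨l, hl⟩ := (per_mem (ψ σ p (f σ c c))).2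
  generalize per (ψ σ p (f σ c c)) = k at *
  rw [ψ_f] at hl ⊢
  have lr := fun (B : Type) [CommRing B] => lf_root (S := ZMod p) (B := B) (σ := σ)
  have hx := root_pow (S := ZMod p) σ
  generalize AdjoinRoot.root (X ^ σ - 1 : (ZMod p)[X]) = x at *
  have k1 : p - 1 ∣ k := by
    have := congrArg (lf (RingHom.id _) (1 : ZMod p) (one_pow σ)) hl
    simp only [map_pow, map_add, map_mul, lf_of, lr, RingHom.id_apply, mul_one] at this
    rw [hc, show (g / 2 + g / 2 : ZMod p) = g by field_simp; ring] at this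
    rw [← hg, orderOf_dvd_iff_pow_eq_one]
    exact mul_right_cancel (b := g ^ l) (Units.ext (by simpa [pow_add] using this))
  have x1 : x ^ (σ - 1) * x = 1 := by rw [← pow_succ, Nat.sub_add_cancel NeZero.one_le, hx]
  have k2 : (1 + x) ^ l * (x ^ k - 1) = 0 := by
    have := congrArg (lf (AdjoinRoot.of _) (x ^ (σ - 1)) (by rw [← pow_mul, mul_comm, pow_mul, hx,
      one_pow])) hl
    simp only [map_pow, map_add, map_mul, lf_of, lr] at this
    refine ((c0.isUnit.map (AdjoinRoot.of _)).pow l).mul_right_eq_zero.1 ?_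
    generalize AdjoinRoot.of (X ^ σ - 1 : (ZMod p)[X]) c = d at *
    have e : d + d * x = (d + d * x ^ (σ - 1)) * x := by linear_combination -d * x1
    rw [← mul_assoc, ← mul_pow, mul_add, mul_one, mul_sub, mul_one, sub_eq_zero]
    conv_rhs => rw [← hl, e, mul_pow, this, pow_add, mul_comm (x ^ k), ← mul_assoc, ← mul_pow, ← e]
  have u2 : IsUnit (2 : R σ p) := by simpa [map_ofNat] using h2.isUnit.map (AdjoinRoot.of (X ^ σ - 1))
  have k3 : x ^ k - 1 = 0 := by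
    rcases σ.even_or_odd with c | c
    · have := congrArg (lf (AdjoinRoot.of _) (-x) (by rw [c.neg_pow, hx])) k2
      simp only [map_pow, map_add, map_mul, map_sub, map_one, map_zero, lr] at this
      rw [((Nat.Odd.sub_odd ho odd_one).two_dvd.trans k1 |> even_iff_two_dvd.2).neg_pow] at this
      obtain ⟨u, hu⟩ := u2.exists_left_inv
      obtain ⟨s, t, e⟩ := IsCoprime.pow (m := l) (n := l)
        (⟨u, u, by linear_combination hu⟩ : IsCoprime (1 + x) (1 + -x))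
      linear_combination s * k2 + t * this - (x ^ k - 1) * e
    · have := c.add_dvd_pow_add_pow 1 x
      rw [hx, one_pow, one_add_one_eq_two] at this
      exact ((isUnit_of_dvd_unit this u2).pow l).mul_right_eq_zero.1 k2
  obtain ⟨t, rfl⟩ := k1
  rw [Int.cast_zero, map_zero, zero_add, mul_pow, pow_succ x, sub_eq_zero.1 k3, one_mul, pow_one,
    ← map_pow]
  congr 2
  rcases eq_or_ne (b : ZMod p) 0 with c | c
  · simp [c]
  · rw [pow_succ, pow_mul, ZMod.pow_card_sub_one_eq_one c, one_pow, one_mul]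

theorem base (ho : Odd p) : ∃ a b : ℤ, per (ψ σ p (f σ a b)) = pi σ p ∧
    ¬ Z (p * p : A σ) (f σ a b) (pi σ p) := by
  have := fin σ p
  obtain ⟨a, b, e⟩ := ex_pi σ p
  by_cases c : p ∣ pi σ p
  · have hb : (b : ZMod p) ≠ 0 := fun hb => by
      have : pi σ p ∣ p - 1 := e ▸ per_dvd.2 ⟨1, by
        rw [Nat.sub_add_cancel hp.out.one_le, ψ_f, hb, map_zero, zero_mul, add_zero, ← map_pow,
          ZMod.pow_card, pow_one]⟩
      have := Nat.le_of_dvd (Nat.sub_pos_of_lt hp.out.one_lt) (c.trans this)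
      have := hp.out.pos
      omega
    by_cases ha : (a : ZMod p) = 0
    · obtain ⟨d, d0, hd⟩ := sym (σ := σ) ho
      have e2 : per (ψ σ p (f σ d d)) = pi σ p := (le_pi σ p d d).antisymm (by
        rw [← e, ψ_f, ha, ← Int.cast_zero, ← ψ_f]; exact Nat.le_of_dvd (per_mem _).1 (hd b))
      exact ⟨d, d, e2, e2 ▸ hard d0 d0 (e2 ▸ c)⟩
    · exact ⟨a, b, e, e ▸ hard ha hb (e ▸ c)⟩
  have main : ∀ a b : ℤ, per (ψ σ p (f σ a b)) = pi σ p → (∀ l, ψ σ p (f σ a b) ^ l ≠ 0) →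
      ∃ a b : ℤ, per (ψ σ p (f σ a b)) = pi σ p ∧ ¬ Z (p * p : A σ) (f σ a b) (pi σ p) :=
    fun a b e h => by
    by_contra! z
    obtain ⟨l, hl⟩ := perturb hp.out.pos (reg σ hp.out.ne_zero) (hp.out.coprime_iff_not_dvd.2 c)
      (z a b e) (by
        convert z (a + p) b (by rw [← e, ψ_f, ψ_f]; simp) using 1
        simp [f]; ring)
    exact h l (by rw [← map_pow, ker]; exact hl)
  by_cases n : ∃ l, ψ σ p (f σ a b) ^ l = 0
  · refine main 1 0 ((le_pi σ p 1 0).antisymm (by rw [← e, nil n.choose_spec]; exact (per_mem _).1))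
      fun l h => ?_
    simpa [f] using congrArg (lf (RingHom.id _) (1 : ZMod p) (one_pow σ)) h
  · exact main a b e (not_exists.1 n)

theorem main (ho : Odd p) (m : ℕ) : pi σ (p ^ (m + 1 + 1)) = p * pi σ (p ^ (m + 1)) := by
  have F : ∀ m, Finite (R σ (p ^ m)) := fun m => fin σ _
  have c : ∀ m, ((p ^ (m + 1) : ℕ) : A σ) = p * (p ^ m : ℕ) := fun m => by push_cast; ring
  have U : ∀ m y, per (ψ σ (p ^ (m + 1 + 1)) y) ∣ per (ψ σ (p ^ (m + 1)) y) * p := fun m y => by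
    have := per_Z.1 (per_mem (ψ σ (p ^ (m + 1)) y)).2
    rw [per_dvd, per_Z, c, c]
    exact up (c m ▸ this)
  have S : ∀ m, (∃ a b : ℤ, per (ψ σ (p ^ (m + 1)) (f σ a b)) = pi σ (p ^ (m + 1)) ∧
      ¬ Z ((p ^ (m + 1 + 1) : ℕ) : A σ) (f σ a b) (pi σ (p ^ (m + 1)))) →
      pi σ (p ^ (m + 1 + 1)) = pi σ (p ^ (m + 1)) * p ∧ ∃ a b : ℤ,
      per (ψ σ (p ^ (m + 1 + 1)) (f σ a b)) = pi σ (p ^ (m + 1 + 1)) ∧
      ¬ Z ((p ^ (m + 1 + 1 + 1) : ℕ) : A σ) (f σ a b) (pi σ (p ^ (m + 1 + 1))) := by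
    rintro m ⟨a, b, e, h⟩
    have h1 := U m (f σ a b)
    obtain ⟨t, ht⟩ : per (ψ σ (p ^ (m + 1)) (f σ a b)) ∣ per (ψ σ (p ^ (m + 1 + 1)) (f σ a b)) := by
      obtain ⟨l, hl⟩ := per_Z.1 (per_mem (ψ σ (p ^ (m + 1 + 1)) (f σ a b))).2
      exact per_dvd.2 (per_Z.2 ⟨l, (Dvd.intro_left _ (c _).symm).trans hl⟩)
    rw [ht, Nat.mul_dvd_mul_iff_left (per_mem _).1, Nat.dvd_prime hp.out] at h1
    have h2 := per_Z.1 (per_mem (ψ σ (p ^ (m + 1 + 1)) (f σ a b))).2
    rw [e] at ht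
    obtain rfl := h1.resolve_left fun t1 => h (by rwa [ht, t1, mul_one] at h2)
    have h3 : pi σ (t ^ (m + 1 + 1)) = pi σ (t ^ (m + 1)) * t := by
      refine le_antisymm ?_ (ht ▸ le_pi σ _ a b)
      obtain ⟨a', b', e'⟩ := ex_pi σ (t ^ (m + 1 + 1))
      exact e' ▸ (Nat.le_of_dvd (Nat.mul_pos (per_mem _).1 hp.out.pos) (U m _)).trans
        (Nat.mul_le_mul_right _ (le_pi σ _ a' b'))
    refine ⟨h3, a, b, ht.trans h3.symm, fun z => h ?_⟩
    have h4 := per_Z.1 (per_mem (ψ σ (t ^ (m + 1)) (f σ a b))).2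
    rw [h3, c, c, c] at z
    rw [e, c] at h4
    rw [c, c]
    exact down ho (reg σ hp.out.ne_zero) (reg σ (pow_ne_zero m hp.out.ne_zero)) h4 z
  rw [mul_comm]
  refine (S m ?_).1
  induction m with
  | zero => rw [c, zero_add, pow_one]; exact base ho
  | succ m ih => exact (S m ih).2

end Pool.Agent.H.MP_25c86d_nt
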